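import Mathlib

/-!
# Positive `p`-energy and edge addition

The blow-up `C_M[N]` of the cycle `C_M` (each vertex replaced by `N` independent vertices) and the same
graph with the matching edges `(i, s) (i + d, s)` added.  Both adjacency matrices are diagonalised by the
characters of `ZMod M × ZMod N`.  For large `N` the change of the positive `p`-energy is
`p N ^ (p - 1) ∑ₖ (2 cos θₖ)₊ ^ (p - 1) 2 cos (d θₖ)`, `θₖ = 2 π k / M`, up to smaller terms, and the
cosine integral `∫ (cos θ)₊ ^ q cos (d θ)` is negative for `d = ⌊q⌋ + 3`.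
-/

set_option autoImplicit false

namespace Pool.Agent.PosEnergy

open MeasureTheory

/-! ### The cosine integrals -/

/-- `∫_{-π/2}^{π/2} cos^q θ cos dθ`. -/
noncomputable def Ic (q d : ℝ) : ℝ :=
  ∫ θ in (-(Real.pi / 2))..(Real.pi / 2), (Real.cos θ) ^ q * Real.cos (d * θ)

lemma Ic_neg (q d : ℝ) : Ic q (-d) = Ic q d := by
  unfold Ic
  congr 1
  ext θ
  rw [neg_mul, Real.cos_neg]

lemma Ic_rec {q : ℝ} (hq : 0 ≤ q) (d : ℝ) :
    (q + d + 2) * Ic (q + 1) (d + 1) = (q + 1) * Ic q d := by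
  have hcont1 : Continuous (fun θ : ℝ => (Real.cos θ) ^ (q + 1) * Real.cos ((d + 1) * θ)) := by
    refine Continuous.mul ?_ (by fun_prop)
    exact Real.continuous_cos.rpow_const (fun x => Or.inr (by linarith))
  have hcont0 : Continuous (fun θ : ℝ => (Real.cos θ) ^ q * Real.cos (d * θ)) := by
    refine Continuous.mul ?_ (by fun_prop)
    exact Real.continuous_cos.rpow_const (fun x => Or.inr hq)
  have hderiv : ∀ θ ∈ Set.uIcc (-(Real.pi / 2)) (Real.pi / 2),
      HasDerivAt (fun θ : ℝ => (Real.cos θ) ^ (q + 1) * Real.sin ((d + 1) * θ))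
        ((q + d + 2) * ((Real.cos θ) ^ (q + 1) * Real.cos ((d + 1) * θ))
          - (q + 1) * ((Real.cos θ) ^ q * Real.cos (d * θ))) θ := by
    intro θ hθ
    rw [Set.uIcc_of_le (by linarith [Real.pi_pos])] at hθ
    have hc : 0 ≤ Real.cos θ := Real.cos_nonneg_of_mem_Icc hθ
    have h1 : HasDerivAt (fun θ : ℝ => (Real.cos θ) ^ (q + 1))
        ((q + 1) * (Real.cos θ) ^ (q + 1 - 1) * (-Real.sin θ)) θ :=
      (Real.hasDerivAt_rpow_const (Or.inr (by linarith))).comp θ (Real.hasDerivAt_cos θ)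
    have h2 : HasDerivAt (fun θ : ℝ => Real.sin ((d + 1) * θ))
        (Real.cos ((d + 1) * θ) * ((d + 1) * 1)) θ :=
      (Real.hasDerivAt_sin _).comp θ ((hasDerivAt_id θ).const_mul (d + 1))
    have h3 := h1.mul h2
    refine h3.congr_deriv ?_
    have e1 : (Real.cos θ) ^ (q + 1) = (Real.cos θ) ^ q * Real.cos θ := by
      rw [Real.rpow_add_of_nonneg hc hq zero_le_one, Real.rpow_one]
    have e2 : Real.cos (d * θ) =
        Real.cos ((d + 1) * θ) * Real.cos θ + Real.sin ((d + 1) * θ) * Real.sin θ := by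
      rw [← Real.cos_sub]; congr 1; ring
    rw [add_sub_cancel_right, e1, e2]
    ring
  have hint := intervalIntegral.integral_eq_sub_of_hasDerivAt hderiv
    (((hcont1.const_mul _).sub (hcont0.const_mul _)).intervalIntegrable _ _)
  have hz : (0 : ℝ) ^ (q + 1) = 0 := Real.zero_rpow (by linarith)
  rw [Real.cos_neg, Real.cos_pi_div_two, hz, zero_mul, zero_mul, sub_zero] at hint
  rw [intervalIntegral.integral_sub, intervalIntegral.integral_const_mul,
    intervalIntegral.integral_const_mul] at hint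
  · unfold Ic
    linarith
  · exact (hcont1.const_mul _).intervalIntegrable _ _
  · exact (hcont0.const_mul _).intervalIntegrable _ _

lemma Ic_one_pos {q : ℝ} (hq : 0 ≤ q) : 0 < Ic q 1 := by
  unfold Ic
  have hcont0 : Continuous (fun θ : ℝ => (Real.cos θ) ^ q * Real.cos (1 * θ)) := by
    refine Continuous.mul ?_ (by fun_prop)
    exact Real.continuous_cos.rpow_const (fun x => Or.inr hq)
  apply intervalIntegral.intervalIntegral_pos_of_pos_on (hcont0.intervalIntegrable _ _)
  · intro x hx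
    have := Real.cos_pos_of_mem_Ioo hx
    rw [one_mul]
    positivity
  · linarith [Real.pi_pos]

lemma Ic_three_neg {q : ℝ} (hq : 0 ≤ q) (hq1 : q < 1) : Ic q 3 < 0 := by
  have h1 := Ic_rec hq (-3)
  have h2 := Ic_rec hq 1
  rw [Ic_neg, show (-3 + 1 : ℝ) = -2 by norm_num, Ic_neg] at h1
  rw [show (1 + 1 : ℝ) = 2 by norm_num] at h2
  have h3 := Ic_one_pos hq
  have h4 : 0 < Ic (q + 1) 2 := by
    have h5 : 0 < (q + 1 + 2) * Ic (q + 1) 2 := by rw [h2]; positivity
    exact (mul_pos_iff_of_pos_left (by linarith)).1 h5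
  have h6 : (q + 1) * Ic q 3 < 0 := by
    rw [← h1]
    have : q + -3 + 2 < 0 := by linarith
    exact mul_neg_of_neg_of_pos this h4
  by_contra hcon
  push Not at hcon
  have := mul_nonneg (by linarith : (0:ℝ) ≤ q + 1) hcon
  linarith

lemma Ic_neg_aux {r : ℝ} (hr : 0 ≤ r) (hr1 : r < 1) (m : ℕ) : Ic (r + m) (m + 3) < 0 := by
  induction m with
  | zero => simpa using Ic_three_neg hr hr1
  | succ m ih =>
    have h := Ic_rec (q := r + m) (by positivity) (m + 3)
    rw [show (r + m + 1 : ℝ) = r + (m + 1 : ℕ) by push_cast; ring,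
      show ((m : ℝ) + 3 + 1) = (m + 1 : ℕ) + 3 by push_cast; ring] at h
    have h6 : (r + m + (m + 3) + 2 : ℝ) * Ic (r + (m + 1 : ℕ)) ((m + 1 : ℕ) + 3) < 0 := by
      rw [h]
      exact mul_neg_of_pos_of_neg (by positivity) ih
    by_contra hcon
    push Not at hcon
    have := mul_nonneg (by positivity : (0:ℝ) ≤ (r + m + (m + 3) + 2 : ℝ)) hcon
    linarith

/-- The cosine integral is negative for some integer frequency. -/
lemma exists_Ic_neg {q : ℝ} (hq : 0 ≤ q) : ∃ d : ℕ, 3 ≤ d ∧ Ic q d < 0 := by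
  refine ⟨⌊q⌋₊ + 3, by omega, ?_⟩
  have h := Ic_neg_aux (r := q - ⌊q⌋₊) (sub_nonneg.2 (Nat.floor_le hq))
    (by linarith [Nat.lt_floor_add_one q]) ⌊q⌋₊
  simpa using h

/-- The positive power function. -/
noncomputable def pw (p x : ℝ) : ℝ := if 0 < x then x ^ p else 0

lemma pw_eq_max {p : ℝ} (hp : p ≠ 0) (x : ℝ) : pw p x = (max x 0) ^ p := by
  unfold pw
  split_ifs with h
  · rw [max_eq_left h.le]
  · rw [max_eq_right (not_lt.1 h), Real.zero_rpow hp]

lemma pw_nonneg (p x : ℝ) : 0 ≤ pw p x := by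
  unfold pw
  split_ifs with h
  · positivity
  · exact le_rfl

lemma continuous_pw {p : ℝ} (hp : 0 < p) : Continuous (pw p) := by
  have : pw p = fun x => (max x 0) ^ p := funext (pw_eq_max hp.ne')
  rw [this]
  exact (continuous_id.max continuous_const).rpow_const (fun x => Or.inr hp.le)

lemma pw_mul {p c : ℝ} (hc : 0 < c) (x : ℝ) : pw p (c * x) = c ^ p * pw p x := by
  unfold pw
  by_cases h : 0 < x
  · rw [if_pos h, if_pos (mul_pos hc h), Real.mul_rpow hc.le h.le]
  · rw [if_neg h, if_neg (by rw [mul_pos_iff_of_pos_left hc]; exact h), mul_zero]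

/-- The test function on the circle. -/
noncomputable def gf (q : ℝ) (d : ℕ) (θ : ℝ) : ℝ := pw q (Real.cos θ) * Real.cos (d * θ)

lemma continuous_gf {q : ℝ} (hq : 0 < q) (d : ℕ) : Continuous (gf q d) :=
  ((continuous_pw hq).comp Real.continuous_cos).mul (by fun_prop)

lemma gf_periodic (q : ℝ) (d : ℕ) : Function.Periodic (gf q d) (2 * Real.pi) := by
  intro θ
  unfold gf
  rw [Real.cos_add_two_pi]
  congr 1
  rw [mul_add, ← Real.cos_add_nat_mul_two_pi (d * θ) d]

lemma integral_gf {q : ℝ} (hq : 0 < q) (d : ℕ) :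
    ∫ θ in (0:ℝ)..(2 * Real.pi), gf q d θ = Ic q d := by
  have hc := continuous_gf hq d
  have h1 := (gf_periodic q d).intervalIntegral_add_eq 0 (-(Real.pi / 2))
  rw [zero_add] at h1
  rw [h1, ← intervalIntegral.integral_add_adjacent_intervals (b := Real.pi / 2)
    (hc.intervalIntegrable _ _) (hc.intervalIntegrable _ _)]
  have h2 : ∫ θ in (Real.pi / 2)..(-(Real.pi / 2) + 2 * Real.pi), gf q d θ = 0 := by
    rw [intervalIntegral.integral_congr (g := fun _ => (0 : ℝ))]
    · simp
    · intro θ hθ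
      rw [Set.uIcc_of_le (by linarith [Real.pi_pos])] at hθ
      have : Real.cos θ ≤ 0 :=
        Real.cos_nonpos_of_pi_div_two_le_of_le hθ.1 (by linarith [hθ.2])
      simp [gf, pw, not_lt.2 this]
  rw [h2, add_zero]
  unfold Ic
  apply intervalIntegral.integral_congr
  intro θ hθ
  rw [Set.uIcc_of_le (by linarith [Real.pi_pos])] at hθ
  have hcc : 0 ≤ Real.cos θ := Real.cos_nonneg_of_mem_Icc hθ
  simp only [gf]
  rw [pw_eq_max hq.ne', max_eq_left hcc]

/-- Riemann sums. -/
lemma exists_riemann {g : ℝ → ℝ} (hg : Continuous g)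
    (hneg : ∫ θ in (0:ℝ)..(2 * Real.pi), g θ < 0) (B : ℕ) :
    ∃ M : ℕ, B ≤ M ∧ 0 < M ∧ ∑ k ∈ Finset.range M, g (2 * Real.pi * k / M) < 0 := by
  set T : ℝ := 2 * Real.pi with hT
  have hTpos : 0 < T := by positivity
  set J : ℝ := ∫ θ in (0:ℝ)..T, g θ with hJ
  set ε : ℝ := -J / (2 * T) with hε
  have hεpos : 0 < ε := by rw [hε]; apply div_pos <;> linarith
  have huc : UniformContinuousOn g (Set.Icc 0 T) :=
    isCompact_Icc.uniformContinuousOn_of_continuous hg.continuousOn
  rw [Metric.uniformContinuousOn_iff] at huc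
  obtain ⟨δ, hδ, hδ'⟩ := huc ε hεpos
  obtain ⟨M0, hM0⟩ := exists_nat_gt (T / δ)
  refine ⟨max (max B 1) M0, le_trans (le_max_left _ _) (le_max_left _ _),
    lt_of_lt_of_le Nat.one_pos (le_trans (le_max_right _ _) (le_max_left _ _)), ?_⟩
  set M := max (max B 1) M0 with hM
  have hMpos : 0 < (M : ℝ) := by
    have : 1 ≤ M := le_trans (le_max_right _ _) (le_max_left _ _)
    exact_mod_cast this
  have hMδ : T / M < δ := by
    rw [div_lt_iff₀ hMpos]
    rw [div_lt_iff₀ hδ] at hM0
    have : (M0 : ℝ) ≤ M := by exact_mod_cast le_max_right _ _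
    nlinarith
  let a : ℕ → ℝ := fun k => T * k / M
  have hsum : ∑ k ∈ Finset.range M, ∫ θ in (a k)..(a (k + 1)), g θ = J := by
    rw [intervalIntegral.sum_integral_adjacent_intervals
      (fun k _ => hg.intervalIntegrable _ _)]
    simp only [a, hJ]
    congr 1
    · simp
    · field_simp
  have hstep : ∀ k : ℕ, a (k + 1) - a k = T / M := by
    intro k; simp only [a]; push_cast; ring
  have hle : ∀ k ∈ Finset.range M, (T / M) * (g (a k) - ε) ≤ ∫ θ in (a k)..(a (k + 1)), g θ := by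
    intro k hk
    rw [Finset.mem_range] at hk
    have h1 : (T / M) * (g (a k) - ε) = ∫ θ in (a k)..(a (k + 1)), (g (a k) - ε) := by
      rw [intervalIntegral.integral_const, hstep, smul_eq_mul]
    rw [h1]
    have hTM : 0 < T / M := by positivity
    apply intervalIntegral.integral_mono_on (by linarith [hstep k])
      (by simp) (hg.intervalIntegrable _ _)
    intro x hx
    have ha0 : 0 ≤ a k := by simp only [a]; positivity
    have haT : a (k + 1) ≤ T := by
      simp only [a]
      rw [div_le_iff₀ hMpos]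
      have : ((k + 1 : ℕ) : ℝ) ≤ M := by exact_mod_cast hk
      nlinarith
    have hd := hδ' (a k) ⟨ha0, by linarith [hx.1, hx.2]⟩ x ⟨by linarith [hx.1], by linarith [hx.2]⟩
      (by
        rw [Real.dist_eq, abs_sub_comm, abs_of_nonneg (by linarith [hx.1])]
        linarith [hx.2, hstep k])
    rw [Real.dist_eq, abs_lt] at hd
    linarith [hd.2]
  have h2 := Finset.sum_le_sum hle
  rw [hsum, ← Finset.mul_sum, Finset.sum_sub_distrib] at h2
  simp only [Finset.sum_const, Finset.card_range, nsmul_eq_mul] at h2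
  have h3 : (T / M) * (∑ k ∈ Finset.range M, g (a k) - M * ε) =
      (T / M) * ∑ k ∈ Finset.range M, g (a k) - T * ε := by
    field_simp
  rw [h3] at h2
  have h4 : T * ε = -J / 2 := by rw [hε]; field_simp
  have h5 : (T / M) * ∑ k ∈ Finset.range M, g (a k) < 0 := by
    rw [h4] at h2
    linarith
  have h6 : ∑ k ∈ Finset.range M, g (a k) < 0 := by
    by_contra hcon
    push Not at hcon
    have : 0 ≤ (T / M) * ∑ k ∈ Finset.range M, g (a k) := mul_nonneg (by positivity) hcon
    linarith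
  exact h6

lemma exists_sum_neg {q : ℝ} (hq : 0 < q) : ∃ d M : ℕ, 3 ≤ d ∧ 2 * d < M ∧
    ∑ k ∈ Finset.range M, gf q d (2 * Real.pi * k / M) < 0 := by
  obtain ⟨d, hd, hI⟩ := exists_Ic_neg hq.le
  obtain ⟨M, hM, hM0, hs⟩ := exists_riemann (continuous_gf hq d)
    (by rw [integral_gf hq]; exact hI) (2 * d + 1)
  exact ⟨d, M, hd, by omega, hs⟩

lemma hasDerivAt_pw {p : ℝ} (hp : 1 < p) (x : ℝ) :
    HasDerivAt (pw p) (p * pw (p - 1) x) x := by
  rcases lt_trichotomy x 0 with hx | hx | hx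
  · have h0 : pw (p - 1) x = 0 := by unfold pw; rw [if_neg (not_lt.2 hx.le)]
    rw [h0, mul_zero]
    refine (hasDerivAt_const x (0 : ℝ)).congr_of_eventuallyEq ?_
    filter_upwards [Iio_mem_nhds hx] with y hy
    unfold pw
    rw [if_neg (not_lt.2 (le_of_lt hy))]
  · subst hx
    have h0 : pw (p - 1) 0 = 0 := by unfold pw; rw [if_neg (lt_irrefl _)]
    have h00 : pw p 0 = 0 := by unfold pw; rw [if_neg (lt_irrefl _)]
    rw [h0, mul_zero, hasDerivAt_iff_isLittleO]
    have h1 := hasDerivAt_abs_rpow 0 hp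
    rw [mul_zero, hasDerivAt_iff_isLittleO] at h1
    refine Asymptotics.IsBigO.trans_isLittleO ?_ h1
    refine Asymptotics.IsBigO.of_bound 1 (Filter.Eventually.of_forall fun y => ?_)
    simp only [h00, abs_zero, smul_zero, sub_zero, one_mul]
    rw [Real.zero_rpow (by linarith), sub_zero, Real.norm_eq_abs, Real.norm_eq_abs,
      abs_of_nonneg (pw_nonneg _ _), abs_of_nonneg (by positivity)]
    unfold pw
    split_ifs with h
    · rw [abs_of_pos h]
    · positivity
  · have h0 : pw (p - 1) x = x ^ (p - 1) := by unfold pw; rw [if_pos hx]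
    rw [h0]
    refine (Real.hasDerivAt_rpow_const (Or.inl hx.ne')).congr_of_eventuallyEq ?_
    filter_upwards [Ioi_mem_nhds hx] with y hy
    unfold pw
    rw [if_pos (Set.mem_Ioi.1 hy)]

open Filter Topology in
lemma tendsto_pw_slope {p : ℝ} (hp : 1 < p) (a b : ℝ) :
    Tendsto (fun N : ℕ => (N : ℝ) ^ (1 - p) * (pw p (N * a + b) - pw p (N * a))) atTop
      (𝓝 (p * pw (p - 1) a * b)) := by
  have h1 : HasDerivAt (fun t : ℝ => pw p (a + b * t)) (p * pw (p - 1) a * b) 0 := by
    have h2 : HasDerivAt (fun t : ℝ => a + b * t) b 0 := by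
      simpa using ((hasDerivAt_id (0 : ℝ)).const_mul b).const_add a
    have h3 : HasDerivAt (pw p) (p * pw (p - 1) a) (a + b * 0) := by
      simpa using hasDerivAt_pw hp a
    exact h3.comp 0 h2
  rw [hasDerivAt_iff_tendsto_slope_zero] at h1
  have h2 : Tendsto (fun N : ℕ => ((N : ℝ))⁻¹) atTop (𝓝[≠] 0) := by
    rw [tendsto_nhdsWithin_iff]
    refine ⟨tendsto_inv_atTop_nhds_zero_nat, ?_⟩
    filter_upwards [eventually_gt_atTop 0] with N hN
    simp only [Set.mem_compl_iff, Set.mem_singleton_iff, inv_eq_zero, Nat.cast_eq_zero]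
    omega
  refine (h1.comp h2).congr' ?_
  filter_upwards [eventually_gt_atTop 0] with N hN
  have hN' : (0 : ℝ) < N := by exact_mod_cast hN
  simp only [Function.comp_apply, zero_add, mul_zero, add_zero, inv_inv, smul_eq_mul]
  have e1 : (N : ℝ) * a + b = N * (a + b * (N : ℝ)⁻¹) := by field_simp
  rw [e1, pw_mul hN', pw_mul hN', ← mul_sub, ← mul_assoc, ← Real.rpow_add hN']
  norm_num

open Filter Topology in
lemma tendsto_small {p : ℝ} (hp : 2 < p) :
    Tendsto (fun N : ℕ => (N : ℝ) ^ (1 - p) * (N : ℝ)) atTop (𝓝 0) := by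
  have h1 : Tendsto (fun N : ℕ => (N : ℝ) ^ (-(p - 2))) atTop (𝓝 0) :=
    (tendsto_rpow_neg_atTop (by linarith)).comp tendsto_natCast_atTop_atTop
  refine h1.congr' ?_
  filter_upwards [eventually_gt_atTop 0] with N hN
  have hN' : (0 : ℝ) < N := by exact_mod_cast hN
  nth_rewrite 3 [← Real.rpow_one (N : ℝ)]
  rw [← Real.rpow_add hN']
  congr 1
  ring

open Filter Topology in
/-- The asymptotic comparison of the two spectra. -/
lemma exists_N {p : ℝ} (hp : 2 < p) (K : ℝ) (B M : ℕ) (a b : ℕ → ℝ)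
    (hneg : ∑ k ∈ Finset.range M, pw (p - 1) (a k) * b k < 0) :
    ∃ N : ℕ, B ≤ N ∧ 0 < N ∧
      ∑ k ∈ Finset.range M, (pw p (N * a k + b k) + (N - 1) * pw p (b k)) + K * (M * N) <
        ∑ k ∈ Finset.range M, pw p (N * a k) := by
  have h1 : Tendsto (fun N : ℕ => ∑ k ∈ Finset.range M,
      (N : ℝ) ^ (1 - p) * (pw p (N * a k + b k) - pw p (N * a k))) atTop
      (𝓝 (∑ k ∈ Finset.range M, p * pw (p - 1) (a k) * b k)) :=
    tendsto_finsetSum _ fun k _ => tendsto_pw_slope (by linarith) _ _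
  have h2 : Tendsto (fun N : ℕ => ((N : ℝ) ^ (1 - p) * (N : ℝ)) *
      (∑ k ∈ Finset.range M, pw p (b k) + |K| * M)) atTop (𝓝 0) := by
    simpa using (tendsto_small hp).mul_const (∑ k ∈ Finset.range M, pw p (b k) + |K| * M)
  have h3 := h1.add h2
  have hlim : ∑ k ∈ Finset.range M, p * pw (p - 1) (a k) * b k + 0 < 0 := by
    have : ∑ k ∈ Finset.range M, p * pw (p - 1) (a k) * b k =
        p * ∑ k ∈ Finset.range M, pw (p - 1) (a k) * b k := by
      rw [Finset.mul_sum]
      exact Finset.sum_congr rfl fun k _ => by ring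
    rw [this, add_zero]
    exact mul_neg_of_pos_of_neg (by linarith) hneg
  have h4 := (h3.eventually (gt_mem_nhds hlim)).and
    ((eventually_gt_atTop 0).and (eventually_ge_atTop B))
  obtain ⟨N, hN1, hN0, hNB⟩ := h4.exists
  refine ⟨N, hNB, hN0, ?_⟩
  have hN' : (0 : ℝ) < N := by exact_mod_cast hN0
  have hpos : 0 < (N : ℝ) ^ (1 - p) := Real.rpow_pos_of_pos hN' _
  rw [← Finset.mul_sum, mul_assoc, ← mul_add] at hN1
  have h5 : ∑ k ∈ Finset.range M, (pw p (N * a k + b k) - pw p (N * a k)) +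
      N * (∑ k ∈ Finset.range M, pw p (b k) + |K| * M) < 0 := by
    by_contra hcon
    push Not at hcon
    have := mul_nonneg hpos.le hcon
    linarith
  rw [Finset.sum_sub_distrib] at h5
  rw [Finset.sum_add_distrib, ← Finset.mul_sum]
  have h6 : 0 ≤ ∑ k ∈ Finset.range M, pw p (b k) := Finset.sum_nonneg fun k _ => pw_nonneg _ _
  have h7 : K * (M * N) ≤ |K| * (M * N) :=
    mul_le_mul_of_nonneg_right (le_abs_self K) (by positivity)
  nlinarith


open Polynomial Matrix

lemma charpoly_of_diag {n : Type*} [Fintype n] [DecidableEq n] (A : Matrix n n ℝ)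
    (V W : Matrix n n ℂ) (l : n → ℝ) (hVW : V * W = 1)
    (h : A.map (algebraMap ℝ ℂ) * V = V * Matrix.diagonal (fun i => (l i : ℂ))) :
    A.charpoly = ∏ i, (X - C (l i)) := by
  have hWV : W * V = 1 := mul_eq_one_comm.1 hVW
  have h1 : A.map (algebraMap ℝ ℂ) = V * (Matrix.diagonal (fun i => (l i : ℂ)) * W) := by
    rw [← Matrix.mul_assoc, ← h, Matrix.mul_assoc, hVW, Matrix.mul_one]
  have h2 : (A.map (algebraMap ℝ ℂ)).charpoly = ∏ i, (X - C ((l i : ℂ))) := by
    rw [h1, Matrix.charpoly_mul_comm, Matrix.mul_assoc, hWV, Matrix.mul_one,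
      Matrix.charpoly_diagonal]
  rw [Matrix.charpoly_map] at h2
  apply Polynomial.map_injective (algebraMap ℝ ℂ) (algebraMap ℝ ℂ).injective
  rw [h2, Polynomial.map_prod]
  apply Finset.prod_congr rfl
  intro i _
  simp

open Classical in
/-- The positive `p`-energy of a graph: sum of `p`-th powers of the positive adjacency
eigenvalues, with multiplicity. -/
noncomputable def posEnergy {V : Type*} [Fintype V] (p : ℝ) (G : SimpleGraph V) : ℝ :=
  (((G.adjMatrix ℝ).charpoly.roots.filter (fun x => 0 < x)).map (fun x => x ^ p)).sum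

lemma filter_sum (p : ℝ) (s : Multiset ℝ) :
    ((s.filter (fun x => 0 < x)).map (fun x => x ^ p)).sum = (s.map (pw p)).sum := by
  induction s using Multiset.induction with
  | empty => simp
  | cons a s ih =>
    by_cases h : 0 < a
    · rw [Multiset.filter_cons_of_pos _ h, Multiset.map_cons, Multiset.sum_cons, ih,
        Multiset.map_cons, Multiset.sum_cons]
      unfold pw
      rw [if_pos h]
    · rw [Multiset.filter_cons_of_neg _ h, ih, Multiset.map_cons, Multiset.sum_cons]
      unfold pw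
      rw [if_neg h, zero_add]

lemma posEnergy_eq_roots {V : Type*} [Fintype V] [DecidableEq V] (p : ℝ) (G : SimpleGraph V)
    [DecidableRel G.Adj] :
    posEnergy p G = ((G.adjMatrix ℝ).charpoly.roots.map (pw p)).sum := by
  unfold posEnergy
  rw [filter_sum]
  have h1 : ‹DecidableEq V› = fun a b => Classical.propDecidable (a = b) :=
    Subsingleton.elim _ _
  have h2 : ‹DecidableRel G.Adj› = fun a b => Classical.propDecidable (G.Adj a b) :=
    Subsingleton.elim _ _
  subst h1
  subst h2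
  rfl

/-- The positive energy with arbitrary decidability instances. -/
lemma posEnergy_eq_plain {V : Type*} [Fintype V] [DecidableEq V] (p : ℝ) (G : SimpleGraph V)
    [DecidableRel G.Adj] :
    posEnergy p G =
      (((G.adjMatrix ℝ).charpoly.roots.filter (fun x => 0 < x)).map (fun x => x ^ p)).sum := by
  rw [posEnergy_eq_roots, filter_sum]

lemma posEnergy_of_diag {V : Type*} [Fintype V] [DecidableEq V] (p : ℝ) (G : SimpleGraph V)
    [DecidableRel G.Adj] (l : V → ℝ)
    (h : (G.adjMatrix ℝ).charpoly = ∏ i, (X - C (l i))) :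
    posEnergy p G = ∑ i, pw p (l i) := by
  rw [posEnergy_eq_roots]
  have h2 : (∏ i, (X - C (l i)) : ℝ[X]) = ((Finset.univ.val.map l).map fun a => X - C a).prod := by
    rw [Multiset.map_map]
    rfl
  rw [h, h2, Polynomial.roots_multiset_prod_X_sub_C, Multiset.map_map]
  rfl

/-! ### Fourier transform on `ZMod M × ZMod N` -/

section

variable (M N : ℕ) [NeZero M] [NeZero N]

noncomputable def ee (j : ZMod M) : ℂ := ZMod.stdAddChar j

noncomputable def ce (j : ZMod M) : ℝ := (ZMod.stdAddChar j).re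

lemma ee_add (i j : ZMod M) : ee M (i + j) = ee M i * ee M j := AddChar.map_add_eq_mul _ _ _

lemma ee_zero : ee M 0 = 1 := AddChar.map_zero_eq_one _

lemma ee_neg (j : ZMod M) : ee M (-j) = (starRingEnd ℂ) (ee M j) := by
  unfold ee
  rw [ZMod.stdAddChar_apply, ZMod.stdAddChar_apply, AddChar.map_neg_eq_inv, Circle.coe_inv_eq_conj]

lemma ee_add_neg (j : ZMod M) : ee M j + ee M (-j) = 2 * (ce M j : ℂ) := by
  rw [ee_neg, Complex.add_conj]
  unfold ce ee
  push_cast
  ring

lemma ee_sum (j : ZMod M) : ∑ i : ZMod M, ee M (j * i) = if j = 0 then (M : ℂ) else 0 := by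
  split_ifs with h
  · simp only [h, zero_mul, ee_zero, Finset.sum_const, Finset.card_univ, ZMod.card,
      nsmul_eq_mul, mul_one]
  · exact AddChar.sum_eq_zero_of_ne_one (ZMod.isPrimitive_stdAddChar M h)

lemma ce_nat (i : ℕ) : ce M (i : ZMod M) = Real.cos (2 * Real.pi * i / M) := by
  unfold ce
  have h := ZMod.stdAddChar_coe (N := M) (i : ℤ)
  rw [Int.cast_natCast] at h
  rw [h]
  have : (2 * (Real.pi : ℂ) * Complex.I * ((i : ℤ) : ℂ) / (M : ℂ)) =
      ((2 * Real.pi * i / M : ℝ) : ℂ) * Complex.I := by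
    push_cast
    ring
  rw [this, Complex.exp_ofReal_mul_I_re]

/-- The pair Fourier matrix. -/
noncomputable def FV : Matrix (ZMod M × ZMod N) (ZMod M × ZMod N) ℂ :=
  Matrix.of fun x k => ee M (x.1 * k.1) * ee N (x.2 * k.2)

noncomputable def FW : Matrix (ZMod M × ZMod N) (ZMod M × ZMod N) ℂ :=
  Matrix.of fun k x => ((M : ℂ) * N)⁻¹ * (ee M (-(x.1 * k.1)) * ee N (-(x.2 * k.2)))

lemma FV_mul_FW : FV M N * FW M N = 1 := by
  ext x y
  rw [Matrix.mul_apply, Matrix.one_apply]
  have hM : (M : ℂ) ≠ 0 := Nat.cast_ne_zero.2 (NeZero.ne M)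
  have hN : (N : ℂ) ≠ 0 := Nat.cast_ne_zero.2 (NeZero.ne N)
  have h1 : ∀ k : ZMod M × ZMod N, FV M N x k * FW M N k y =
      ((M : ℂ) * N)⁻¹ * (ee M ((x.1 - y.1) * k.1) * ee N ((x.2 - y.2) * k.2)) := by
    intro k
    simp only [FV, FW, Matrix.of_apply]
    rw [show (x.1 - y.1) * k.1 = x.1 * k.1 + -(y.1 * k.1) by ring,
      show (x.2 - y.2) * k.2 = x.2 * k.2 + -(y.2 * k.2) by ring, ee_add, ee_add]
    ring
  simp_rw [h1]
  rw [← Finset.mul_sum, Fintype.sum_prod_type]
  simp_rw [← Finset.mul_sum]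
  rw [← Finset.sum_mul, ee_sum, ee_sum]
  by_cases h : x = y
  · subst h
    simp
    field_simp
  · rw [if_neg h]
    by_cases h1 : x.1 = y.1
    · have h2 : x.2 ≠ y.2 := fun h2 => h (Prod.ext h1 h2)
      rw [if_neg (sub_ne_zero.2 h2)]
      simp
    · rw [if_neg (sub_ne_zero.2 h1)]
      simp

/-- The eigenvalue at `k`; `t = 0` for the blow-up, `t = 1` for the blow-up with the matching. -/
noncomputable def lam (t : ℝ) (d : ZMod M) (k : ZMod M × ZMod N) : ℝ :=
  2 * ce M k.1 * (if k.2 = 0 then (N : ℝ) else 0) + t * (2 * ce M (d * k.1))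

lemma eigen (t : ℝ) (d : ZMod M) (A : Matrix (ZMod M × ZMod N) (ZMod M × ZMod N) ℝ)
    (hA : ∀ x y, A x y = ((if x.1 - y.1 = 1 then 1 else 0) + (if x.1 - y.1 = -1 then 1 else 0)) +
      t * (((if x.1 - y.1 = d then 1 else 0) + (if x.1 - y.1 = -d then 1 else 0)) *
        (if x.2 = y.2 then 1 else 0))) :
    A.map (algebraMap ℝ ℂ) * FV M N =
      FV M N * Matrix.diagonal (fun k => (lam M N t d k : ℂ)) := by
  ext x k
  have hR : FV M N x k = ee M (x.1 * k.1) * ee N (x.2 * k.2) := rfl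
  have hc : ∀ (P : Prop) [Decidable P], ((if P then (1:ℝ) else 0 : ℝ) : ℂ) = if P then 1 else 0 := by
    intro P _
    split_ifs <;> simp
  rw [Matrix.mul_diagonal, Matrix.mul_apply, hR]
  have hshift : ∀ c : ZMod M, ∀ z : ZMod M,
      ((if x.1 - z = c then (1:ℂ) else 0)) = if z = x.1 - c then 1 else 0 := by
    intro c z
    congr 1
    apply propext
    constructor
    · rintro rfl; ring
    · rintro rfl; ring
  obtain ⟨P1, hP1⟩ : ∃ P1 : ZMod M → ℂ, P1 = fun z =>
      ((if z = x.1 - 1 then 1 else 0) + (if z = x.1 - -1 then 1 else 0)) * ee M (z * k.1) :=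
    ⟨_, rfl⟩
  obtain ⟨P2, hP2⟩ : ∃ P2 : ZMod M → ℂ, P2 = fun z =>
      ((if z = x.1 - d then 1 else 0) + (if z = x.1 - -d then 1 else 0)) * ee M (z * k.1) :=
    ⟨_, rfl⟩
  obtain ⟨Q1, hQ1⟩ : ∃ Q1 : ZMod N → ℂ, Q1 = fun z => ee N (z * k.2) := ⟨_, rfl⟩
  obtain ⟨Q2, hQ2⟩ : ∃ Q2 : ZMod N → ℂ, Q2 = fun z =>
      (if x.2 = z then 1 else 0) * ee N (z * k.2) := ⟨_, rfl⟩
  have h1 : ∀ y : ZMod M × ZMod N, (A.map (algebraMap ℝ ℂ)) x y * FV M N y k =
      P1 y.1 * Q1 y.2 + t * (P2 y.1 * Q2 y.2) := by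
    intro y
    have hFV : FV M N y k = ee M (y.1 * k.1) * ee N (y.2 * k.2) := rfl
    rw [Matrix.map_apply, hA, hFV, hP1, hP2, hQ1, hQ2]
    simp only [← hshift, Complex.coe_algebraMap]
    push_cast
    simp only [hc]
    ring
  simp_rw [h1]
  rw [Finset.sum_add_distrib, Fintype.sum_prod_type, ← Finset.mul_sum, Fintype.sum_prod_type]
  dsimp only
  rw [← Finset.sum_mul_sum, ← Finset.sum_mul_sum, hP1, hP2, hQ1, hQ2]
  dsimp only
  have h2 : ∀ c c' : ZMod M, ∑ z : ZMod M, ((if z = x.1 - c then (1:ℂ) else 0) +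
      (if z = x.1 - c' then 1 else 0)) * ee M (z * k.1) =
      ee M ((x.1 - c) * k.1) + ee M ((x.1 - c') * k.1) := by
    intro c c'
    simp_rw [add_mul, ite_mul, one_mul, zero_mul]
    rw [Finset.sum_add_distrib, Finset.sum_ite_eq', Finset.sum_ite_eq']
    simp
  have h3 : ∑ z : ZMod N, (if x.2 = z then (1:ℂ) else 0) * ee N (z * k.2) = ee N (x.2 * k.2) := by
    simp_rw [ite_mul, one_mul, zero_mul]
    rw [Finset.sum_ite_eq]
    simp
  have h4 : ∀ c : ZMod M, ee M ((x.1 - c) * k.1) + ee M ((x.1 - -c) * k.1) =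
      ee M (x.1 * k.1) * (2 * (ce M (c * k.1) : ℂ)) := by
    intro c
    rw [← ee_add_neg, show (x.1 - c) * k.1 = x.1 * k.1 + -(c * k.1) by ring,
      show (x.1 - -c) * k.1 = x.1 * k.1 + c * k.1 by ring, ee_add, ee_add]
    ring
  have h5 : ∑ z : ZMod N, ee N (z * k.2) = if k.2 = 0 then (N : ℂ) else 0 := by
    rw [← ee_sum N k.2]
    exact Finset.sum_congr rfl fun z _ => by rw [mul_comm]
  rw [h2, h2, h3, h4, h4, h5, one_mul]
  simp only [lam]
  by_cases hk : k.2 = 0
  · rw [hk, mul_zero, ee_zero, if_pos rfl, if_pos rfl]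
    push_cast
    ring
  · rw [if_neg hk, if_neg hk]
    push_cast
    ring

lemma posEnergy_eq (p t : ℝ) (d : ZMod M) (G : SimpleGraph (ZMod M × ZMod N))
    [DecidableRel G.Adj]
    (hA : ∀ x y, (G.adjMatrix ℝ) x y =
      ((if x.1 - y.1 = 1 then 1 else 0) + (if x.1 - y.1 = -1 then 1 else 0)) +
      t * (((if x.1 - y.1 = d then 1 else 0) + (if x.1 - y.1 = -d then 1 else 0)) *
        (if x.2 = y.2 then 1 else 0))) :
    posEnergy p G = ∑ k : ZMod M, (pw p (N * (2 * ce M k) + t * (2 * ce M (d * k))) +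
      (N - 1) * pw p (t * (2 * ce M (d * k)))) := by
  rw [posEnergy_of_diag p G (lam M N t d) (charpoly_of_diag _ (FV M N) (FW M N) _ (FV_mul_FW M N)
    (eigen M N t d _ hA)), Fintype.sum_prod_type]
  apply Finset.sum_congr rfl
  intro k _
  have h1 : ∀ l : ZMod N, pw p (lam M N t d (k, l)) =
      (if l = 0 then pw p (N * (2 * ce M k) + t * (2 * ce M (d * k))) -
        pw p (t * (2 * ce M (d * k))) else 0) + pw p (t * (2 * ce M (d * k))) := by
    intro l
    simp only [lam]
    split_ifs with h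
    · rw [mul_comm (2 * ce M k) (N : ℝ)]; ring
    · rw [mul_zero, zero_add, zero_add]
  simp_rw [h1]
  rw [Finset.sum_add_distrib, Finset.sum_ite_eq']
  simp only [Finset.mem_univ, if_true, Finset.sum_const, Finset.card_univ, ZMod.card,
    nsmul_eq_mul]
  ring

lemma sum_zmod_eq (F : ZMod M → ℝ) : ∑ k : ZMod M, F k = ∑ i ∈ Finset.range M, F (i : ZMod M) := by
  symm
  refine Finset.sum_nbij' (fun i : ℕ => (i : ZMod M)) (fun k : ZMod M => k.val) ?_ ?_ ?_ ?_ ?_
  · intro i _; exact Finset.mem_univ _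
  · intro k _; exact Finset.mem_range.2 (ZMod.val_lt k)
  · intro i hi; exact ZMod.val_cast_of_lt (Finset.mem_range.1 hi)
  · intro k _; exact ZMod.natCast_zmod_val k
  · intro i _; rfl

end

/-! ### The graphs -/

section graphs

variable (M N : ℕ) [NeZero M] [NeZero N]

/-- The blow-up of the cycle of length `M`: vertices `(i, s)`, `(j, t)` are adjacent when
`i - j = 1` or `i - j = -1`. -/
def cyc (hM : 1 < M) : SimpleGraph (ZMod M × ZMod N) where
  Adj x y := x.1 - y.1 = 1 ∨ x.1 - y.1 = -1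
  symm := ⟨fun x y h => by
    rcases h with h | h
    · right; rw [← h]; ring
    · left; rw [← neg_sub, h, neg_neg]⟩
  loopless := ⟨fun x h => by
    have : Fact (1 < M) := ⟨hM⟩
    rw [sub_self] at h
    rcases h with h | h
    · exact zero_ne_one h
    · exact zero_ne_one (neg_injective (by rw [neg_zero]; exact h) : (0 : ZMod M) = 1)⟩

/-- the shift by `(d, 0)` -/
def sh (d : ZMod M) (x : ZMod M × ZMod N) : ZMod M × ZMod N := (x.1 + d, x.2)

/-- The blow-up with the matching edges `x, x + (d, 0)` for `x ∈ T`. -/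
noncomputable def gT (hM : 1 < M) (d : ZMod M) (T : Finset (ZMod M × ZMod N)) :
    SimpleGraph (ZMod M × ZMod N) :=
  cyc M N hM ⊔ T.sup (fun x => SimpleGraph.edge x (sh M N d x))

lemma gT_empty (hM : 1 < M) (d : ZMod M) : gT M N hM d ∅ = cyc M N hM := by
  simp [gT]

lemma gT_insert (hM : 1 < M) (d : ZMod M) (x : ZMod M × ZMod N)
    (T : Finset (ZMod M × ZMod N)) :
    gT M N hM d (insert x T) = gT M N hM d T ⊔ SimpleGraph.edge x (sh M N d x) := by
  unfold gT
  rw [Finset.sup_insert, sup_comm (SimpleGraph.edge x (sh M N d x)), ← sup_assoc]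

lemma sup_edge_of_adj {V : Type*} (G : SimpleGraph V) {u v : V} (h : G.Adj u v ∨ u = v) :
    G ⊔ SimpleGraph.edge u v = G := by
  rcases h with h | h
  · rw [sup_eq_left]
    intro a b hab
    rw [SimpleGraph.edge_adj] at hab
    rcases hab.1 with ⟨rfl, rfl⟩ | ⟨rfl, rfl⟩
    · exact h
    · exact h.symm
  · subst h
    simp

lemma gT_univ_adj (hM : 1 < M) (d : ZMod M) (x y : ZMod M × ZMod N) :
    (gT M N hM d Finset.univ).Adj x y ↔
      (x.1 - y.1 = 1 ∨ x.1 - y.1 = -1) ∨
        (((x.1 - y.1 = d ∨ x.1 - y.1 = -d) ∧ x.2 = y.2) ∧ x ≠ y) := by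
  unfold gT
  rw [SimpleGraph.sup_adj, Finset.sup_eq_iSup]
  simp only [SimpleGraph.iSup_adj, SimpleGraph.edge_adj, Finset.mem_univ, exists_prop, true_and]
  apply or_congr Iff.rfl
  constructor
  · rintro ⟨z, h, hne⟩
    refine ⟨?_, hne⟩
    rcases h with ⟨h1, h2⟩ | ⟨h1, h2⟩
    · subst h1; subst h2
      simp [sh]
    · subst h1; subst h2
      simp [sh]
  · rintro ⟨⟨h1 | h1, h2⟩, hne⟩
    · refine ⟨y, Or.inr ⟨?_, rfl⟩, hne⟩
      apply Prod.ext
      · simp only [sh]; rw [← h1]; ring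
      · simp only [sh]; exact h2
    · refine ⟨x, Or.inl ⟨rfl, ?_⟩, hne⟩
      apply Prod.ext
      · simp only [sh]; rw [← neg_neg d, ← h1]; ring
      · simp only [sh]; exact h2.symm

omit [NeZero N] [NeZero M] in
lemma intCast_ne (a b : ℤ) (h : |a - b| < M) (hab : a ≠ b) : (a : ZMod M) ≠ (b : ZMod M) := by
  intro h1
  rw [ZMod.intCast_eq_intCast_iff_dvd_sub] at h1
  have h2 := Int.eq_zero_of_abs_lt_dvd h1 (by rw [abs_sub_comm]; exact h)
  exact hab (by linarith)

lemma posEnergy_cyc (hM : 2 < M) (p : ℝ) :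
    posEnergy p (cyc M N (by omega)) = ∑ k : ZMod M, pw p (N * (2 * ce M k)) := by
  classical
  have h := posEnergy_eq M N p 0 0 (cyc M N (by omega)) (by
    intro x y
    rw [SimpleGraph.adjMatrix_apply]
    have h12 : (1 : ZMod M) ≠ -1 := by
      have := intCast_ne M 1 (-1) (by norm_num; omega) (by norm_num)
      simpa using this
    have hadj : (cyc M N (by omega)).Adj x y ↔ (x.1 - y.1 = 1 ∨ x.1 - y.1 = -1) := Iff.rfl
    rw [zero_mul, add_zero]
    simp only [hadj]
    by_cases h1 : x.1 - y.1 = 1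
    · rw [if_pos (Or.inl h1), if_pos h1, if_neg (by rw [h1]; exact h12), add_zero]
    · by_cases h2 : x.1 - y.1 = -1
      · rw [if_pos (Or.inr h2), if_neg h1, if_pos h2, zero_add]
      · rw [if_neg (by tauto), if_neg h1, if_neg h2, zero_add])
  rw [h]
  apply Finset.sum_congr rfl
  intro k _
  have h0 : pw p 0 = 0 := by unfold pw; rw [if_neg (lt_irrefl _)]
  rw [zero_mul, add_zero, h0, mul_zero, add_zero]

lemma posEnergy_gT (p : ℝ) (d : ℕ) (hd : 2 ≤ d) (hM : 2 * d < M) :
    posEnergy p (gT M N (by omega) (d : ZMod M) Finset.univ) =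
      ∑ k : ZMod M, (pw p (N * (2 * ce M k) + 2 * ce M (d * k)) +
        (N - 1) * pw p (2 * ce M (d * k))) := by
  classical
  have hne := intCast_ne M
  have h12 : (1 : ZMod M) ≠ -1 := by
    have := hne 1 (-1) (by norm_num; omega) (by norm_num)
    simpa using this
  have h1d : (1 : ZMod M) ≠ d := by
    have := hne 1 d (by rw [abs_lt]; constructor <;> omega) (by omega)
    simpa using this
  have h1d' : (1 : ZMod M) ≠ -d := by
    have := hne 1 (-d) (by rw [abs_lt]; constructor <;> omega) (by omega)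
    simpa using this
  have h1d2 : (-1 : ZMod M) ≠ d := by
    have := hne (-1) d (by rw [abs_lt]; constructor <;> omega) (by omega)
    simpa using this
  have h1d3 : (-1 : ZMod M) ≠ -d := by
    have := hne (-1) (-d) (by rw [abs_lt]; constructor <;> omega) (by omega)
    simpa using this
  have hdd : (d : ZMod M) ≠ -d := by
    have := hne d (-d) (by rw [abs_lt]; constructor <;> omega) (by omega)
    simpa using this
  have hd0 : (d : ZMod M) ≠ 0 := by
    have := hne d 0 (by rw [abs_lt]; constructor <;> omega) (by omega)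
    simpa using this
  have h := posEnergy_eq M N p 1 (d : ZMod M) (gT M N (by omega) (d : ZMod M) Finset.univ) (by
    intro x y
    rw [SimpleGraph.adjMatrix_apply]
    simp only [gT_univ_adj]
    by_cases h1 : x.1 - y.1 = 1
    · rw [if_pos (Or.inl (Or.inl h1)), if_pos h1, if_neg (by rw [h1]; exact h12),
        if_neg (by rw [h1]; exact h1d), if_neg (by rw [h1]; exact h1d')]
      ring
    · by_cases h2 : x.1 - y.1 = -1
      · rw [if_pos (Or.inl (Or.inr h2)), if_neg h1, if_pos h2,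
          if_neg (by rw [h2]; exact h1d2), if_neg (by rw [h2]; exact h1d3)]
        ring
      · have hneq : x.1 - y.1 = d → x ≠ y := by
          rintro h3 rfl
          exact hd0 (by rw [← h3, sub_self])
        have hneq' : x.1 - y.1 = -d → x ≠ y := by
          rintro h3 rfl
          rw [sub_self] at h3
          exact hd0 (neg_eq_zero.1 h3.symm)
        by_cases h3 : x.1 - y.1 = d
        · have h5 : ¬ x.1 - y.1 = -(d : ZMod M) := by rw [h3]; exact hdd
          by_cases h4 : x.2 = y.2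
          · rw [if_pos (Or.inr ⟨⟨Or.inl h3, h4⟩, hneq h3⟩), if_neg h1, if_neg h2, if_pos h3,
              if_neg h5, if_pos h4]
            ring
          · have h6 : ¬ ((x.1 - y.1 = 1 ∨ x.1 - y.1 = -1) ∨
                (((x.1 - y.1 = d ∨ x.1 - y.1 = -d) ∧ x.2 = y.2) ∧ x ≠ y)) := by tauto
            rw [if_neg h6, if_neg h1, if_neg h2, if_neg h4]
            ring
        · by_cases h5 : x.1 - y.1 = -d
          · by_cases h4 : x.2 = y.2
            · rw [if_pos (Or.inr ⟨⟨Or.inr h5, h4⟩, hneq' h5⟩), if_neg h1, if_neg h2, if_neg h3,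
                if_pos h5, if_pos h4]
              ring
            · have h6 : ¬ ((x.1 - y.1 = 1 ∨ x.1 - y.1 = -1) ∨
                (((x.1 - y.1 = d ∨ x.1 - y.1 = -d) ∧ x.2 = y.2) ∧ x ≠ y)) := by tauto
              rw [if_neg h6, if_neg h1, if_neg h2, if_neg h4]
              ring
          · have h6 : ¬ ((x.1 - y.1 = 1 ∨ x.1 - y.1 = -1) ∨
                (((x.1 - y.1 = d ∨ x.1 - y.1 = -d) ∧ x.2 = y.2) ∧ x ≠ y)) := by tauto
            rw [if_neg h6, if_neg h1, if_neg h2, if_neg h3, if_neg h5]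
            ring)
  rw [h]
  apply Finset.sum_congr rfl
  intro k _
  rw [one_mul]

end graphs

open Classical in
/-- Isolated vertices do not change the positive energy. -/
lemma posEnergy_map {V W : Type*} [Fintype V] [Fintype W] (e : V ↪ W) (p : ℝ)
    (G : SimpleGraph V) : posEnergy p (G.map e) = posEnergy p G := by
  let eqv : V ⊕ ↥(Set.range e)ᶜ ≃ W :=
    (Equiv.sumCongr (Equiv.ofInjective e e.injective) (Equiv.refl _)).trans
      (Equiv.Set.sumCompl (Set.range e))
  have hl : ∀ v, eqv (Sum.inl v) = e v := by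
    intro v
    simp [eqv]
  have hr : ∀ w : ↥(Set.range e)ᶜ, eqv (Sum.inr w) = w := by
    intro w
    simp [eqv]
  have hmat : Matrix.reindex eqv.symm eqv.symm ((G.map e).adjMatrix ℝ) =
      Matrix.fromBlocks (G.adjMatrix ℝ) 0 0 0 := by
    ext i j
    rw [Matrix.reindex_apply, Matrix.submatrix_apply, SimpleGraph.adjMatrix_apply]
    simp only [Equiv.symm_symm]
    rcases i with i | i <;> rcases j with j | j
    · simp only [hl, Matrix.fromBlocks_apply₁₁, SimpleGraph.adjMatrix_apply,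
        SimpleGraph.map_adj_apply]
    · simp only [hl, hr, Matrix.fromBlocks_apply₁₂, Matrix.zero_apply]
      rw [if_neg]
      rw [SimpleGraph.map_adj]
      rintro ⟨u, v, -, -, h⟩
      exact j.2 ⟨v, h⟩
    · simp only [hl, hr, Matrix.fromBlocks_apply₂₁, Matrix.zero_apply]
      rw [if_neg]
      rw [SimpleGraph.map_adj]
      rintro ⟨u, v, -, h, -⟩
      exact i.2 ⟨u, h⟩
    · simp only [hr, Matrix.fromBlocks_apply₂₂, Matrix.zero_apply]
      rw [if_neg]
      rw [SimpleGraph.map_adj]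
      rintro ⟨u, v, -, h, -⟩
      exact i.2 ⟨u, h⟩
  have hcp : ((G.map e).adjMatrix ℝ).charpoly =
      (G.adjMatrix ℝ).charpoly * X ^ Fintype.card ↥(Set.range e)ᶜ := by
    rw [← Matrix.charpoly_reindex eqv.symm, hmat, Matrix.charpoly_fromBlocks_zero₁₂,
      Matrix.charpoly_zero]
  rw [posEnergy_eq_roots, posEnergy_eq_roots, hcp,
    Polynomial.roots_mul (mul_ne_zero (Matrix.charpoly_monic _).ne_zero
      (pow_ne_zero _ Polynomial.X_ne_zero)), Polynomial.roots_X_pow, Multiset.map_add,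
    Multiset.sum_add, Multiset.map_nsmul, Multiset.sum_nsmul, Multiset.map_singleton,
    Multiset.sum_singleton]
  have h0 : pw p 0 = 0 := by unfold pw; rw [if_neg (lt_irrefl _)]
  rw [h0, smul_zero, add_zero]

lemma map_sup_edge {V W : Type*} (e : V ↪ W) (G : SimpleGraph V) (u v : V) :
    (G ⊔ SimpleGraph.edge u v).map e = G.map e ⊔ SimpleGraph.edge (e u) (e v) := by
  ext a b
  simp only [SimpleGraph.map_adj, SimpleGraph.sup_adj, SimpleGraph.edge_adj]
  constructor
  · rintro ⟨x, y, h | h, rfl, rfl⟩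
    · exact Or.inl ⟨x, y, h, rfl, rfl⟩
    · right
      rcases h with ⟨⟨rfl, rfl⟩ | ⟨rfl, rfl⟩, hne⟩
      · exact ⟨Or.inl ⟨rfl, rfl⟩, fun h => hne (e.injective h)⟩
      · exact ⟨Or.inr ⟨rfl, rfl⟩, fun h => hne (e.injective h)⟩
  · rintro (⟨x, y, h, rfl, rfl⟩ | ⟨⟨rfl, rfl⟩ | ⟨rfl, rfl⟩, hne⟩)
    · exact ⟨x, y, Or.inl h, rfl, rfl⟩
    · exact ⟨u, v, Or.inr ⟨Or.inl ⟨rfl, rfl⟩, fun h => hne (by rw [h])⟩, rfl, rfl⟩
    · exact ⟨v, u, Or.inr ⟨Or.inr ⟨rfl, rfl⟩, fun h => hne (by rw [h])⟩, rfl, rfl⟩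

/-! ### Connectedness of the blow-up -/

lemma cyc_connected (M N : ℕ) [NeZero M] [NeZero N] (hM : 1 < M) : (cyc M N hM).Connected := by
  have hstep : ∀ (i : ZMod M) (s t : ZMod N), (cyc M N hM).Adj (i, s) (i + 1, t) := by
    intro i s t
    right
    show i - (i + 1) = -1
    ring
  have h0 : ∀ (i : ℕ) (s : ZMod N), (cyc M N hM).Reachable (0, 0) ((i + 1 : ℕ), s) := by
    intro i
    induction i with
    | zero =>
      intro s
      have := hstep 0 0 s
      rw [zero_add] at this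
      simpa using this.reachable
    | succ i ih =>
      intro s
      have h1 := (hstep ((i + 1 : ℕ) : ZMod M) 0 s).reachable
      have h2 := (ih 0).trans h1
      convert h2 using 2
      push_cast
      rfl
  have h1 : ∀ x : ZMod M × ZMod N, (cyc M N hM).Reachable (0, 0) x := by
    intro x
    have h2 := h0 (x.1.val + M - 1) x.2
    have h3 : ((x.1.val + M - 1 + 1 : ℕ) : ZMod M) = x.1 := by
      rw [show x.1.val + M - 1 + 1 = x.1.val + M by omega]
      push_cast
      rw [ZMod.natCast_zmod_val, ZMod.natCast_self, add_zero]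
    rw [h3] at h2
    exact h2
  have : Nonempty (ZMod M × ZMod N) := ⟨(0, 0)⟩
  exact ⟨fun x y => (h1 x).symm.trans (h1 y)⟩

lemma telescoping' (M N : ℕ) [NeZero M] [NeZero N] {p K : ℝ} (hK : 0 ≤ K) (hM : 1 < M)
    (d : ZMod M)
    (H : ∀ (G : SimpleGraph (ZMod M × ZMod N)) (u v : ZMod M × ZMod N), cyc M N hM ≤ G →
      u ≠ v → ¬ G.Adj u v → posEnergy p G ≤ posEnergy p (G ⊔ SimpleGraph.edge u v) + K)
    (T : Finset (ZMod M × ZMod N)) :
    posEnergy p (cyc M N hM) ≤ posEnergy p (gT M N hM d T) + K * T.card := by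
  classical
  induction T using Finset.induction_on with
  | empty => simp [gT_empty]
  | insert x T hx ih =>
    rw [gT_insert, Finset.card_insert_of_notMem hx]
    push_cast
    by_cases h : (gT M N hM d T).Adj x (sh M N d x) ∨ x = sh M N d x
    · rw [sup_edge_of_adj _ h]
      linarith
    · push Not at h
      have := H (gT M N hM d T) x (sh M N d x) le_sup_left h.2 h.1
      linarith

/-- The drop on the blow-up of a cycle. -/
lemma exists_drop {p : ℝ} (hp : 2 < p) (K : ℝ) (B : ℕ) :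
    ∃ (M N : ℕ) (_ : NeZero M) (_ : NeZero N) (G : SimpleGraph (ZMod M × ZMod N))
      (u v : ZMod M × ZMod N), B ≤ N ∧ G.Connected ∧ u ≠ v ∧ ¬ G.Adj u v ∧
        posEnergy p (G ⊔ SimpleGraph.edge u v) + K < posEnergy p G := by
  obtain ⟨d, M, hd, hM, hs⟩ := exists_sum_neg (q := p - 1) (by linarith)
  obtain ⟨N, hNB, hN, hlt⟩ := exists_N hp (max K 0) B M
    (fun k => 2 * Real.cos (2 * Real.pi * k / M))
    (fun k => 2 * Real.cos (d * (2 * Real.pi * k / M))) (by
      have h1 : ∀ k ∈ Finset.range M, pw (p - 1) (2 * Real.cos (2 * Real.pi * k / M)) *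
          (2 * Real.cos (d * (2 * Real.pi * k / M))) =
          (2 ^ (p - 1) * 2) * gf (p - 1) d (2 * Real.pi * k / M) := by
        intro k _
        rw [pw_mul (by norm_num)]
        unfold gf
        ring
      rw [Finset.sum_congr rfl h1, ← Finset.mul_sum]
      exact mul_neg_of_pos_of_neg (by positivity) hs)
  have hM0 : NeZero M := ⟨by omega⟩
  have hN0 : NeZero N := ⟨by omega⟩
  by_contra hcon
  push Not at hcon
  have H : ∀ (G : SimpleGraph (ZMod M × ZMod N)) (u v : ZMod M × ZMod N),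
      cyc M N (by omega) ≤ G → u ≠ v → ¬ G.Adj u v →
      posEnergy p G ≤ posEnergy p (G ⊔ SimpleGraph.edge u v) + max K 0 := by
    intro G u v hG huv hadj
    have hc : G.Connected := (cyc_connected M N (by omega)).mono hG
    have := hcon M N hM0 hN0 G u v hNB hc huv hadj
    linarith [le_max_left K 0]
  have ht := telescoping' M N (le_max_right K 0) (by omega) (d : ZMod M) H Finset.univ
  rw [posEnergy_cyc M N (by omega) p, posEnergy_gT M N p d (by omega) hM, sum_zmod_eq,
    sum_zmod_eq, Finset.card_univ, Fintype.card_prod, ZMod.card, ZMod.card] at ht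
  have hc1 : ∀ k : ℕ, ce M (k : ZMod M) = Real.cos (2 * Real.pi * k / M) := ce_nat M
  have hc2 : ∀ k : ℕ, ce M ((d : ZMod M) * (k : ZMod M)) =
      Real.cos (d * (2 * Real.pi * k / M)) := by
    intro k
    rw [← Nat.cast_mul, ce_nat]
    congr 1
    push_cast
    ring
  simp only [hc1, hc2] at ht
  push_cast at ht
  linarith

/-- For every real `p > 2` adding an edge can decrease the positive `p`-energy, by an
arbitrarily large amount, on every sufficiently large number of vertices, and also with a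
connected graph on arbitrarily many vertices. -/
theorem main (p : ℝ) (hp : 2 < p) (K : ℝ) :
    (∃ n₀ : ℕ, ∀ n : ℕ, n₀ ≤ n → ∃ (G : SimpleGraph (Fin n)) (u v : Fin n),
      u ≠ v ∧ ¬ G.Adj u v ∧
        posEnergy p (G ⊔ SimpleGraph.edge u v) + K < posEnergy p G) ∧
    (∀ n₁ : ℕ, ∃ n : ℕ, n₁ ≤ n ∧ ∃ (G : SimpleGraph (Fin n)) (u v : Fin n),
      G.Connected ∧ u ≠ v ∧ ¬ G.Adj u v ∧
        posEnergy p (G ⊔ SimpleGraph.edge u v) + K < posEnergy p G) := by
  constructor
  · obtain ⟨M, N, hM0, hN0, G, u, v, -, -, huv, hadj, hlt⟩ := exists_drop hp K 0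
    refine ⟨Fintype.card (ZMod M × ZMod N), fun n hn => ?_⟩
    obtain ⟨e⟩ : Nonempty ((ZMod M × ZMod N) ↪ Fin n) :=
      Function.Embedding.nonempty_of_card_le (by rw [Fintype.card_fin]; exact hn)
    refine ⟨G.map e, e u, e v, fun h => huv (e.injective h), ?_, ?_⟩
    · rw [SimpleGraph.map_adj_apply]
      exact hadj
    · rw [← map_sup_edge, posEnergy_map, posEnergy_map]
      exact hlt
  · intro n₁
    obtain ⟨M, N, hM0, hN0, G, u, v, hB, hconn, huv, hadj, hlt⟩ := exists_drop hp K n₁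
    let e : (ZMod M × ZMod N) ≃ Fin (Fintype.card (ZMod M × ZMod N)) :=
      Fintype.equivFin (ZMod M × ZMod N)
    refine ⟨Fintype.card (ZMod M × ZMod N), ?_, G.map e.toEmbedding, e u, e v, ?_,
      fun h => huv (e.injective h), ?_, ?_⟩
    · rw [Fintype.card_prod, ZMod.card, ZMod.card]
      have : 1 ≤ M := Nat.one_le_iff_ne_zero.2 hM0.out
      nlinarith
    · exact (SimpleGraph.Iso.map e G).connected_iff.1 hconn
    · have : ¬ (G.map e.toEmbedding).Adj (e.toEmbedding u) (e.toEmbedding v) := by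
        rw [SimpleGraph.map_adj_apply]
        exact hadj
      exact this
    · have h1 := map_sup_edge e.toEmbedding G u v
      have h2 := posEnergy_map e.toEmbedding p (G ⊔ SimpleGraph.edge u v)
      have h3 := posEnergy_map e.toEmbedding p G
      rw [h1] at h2
      have h4 : posEnergy p (G.map e.toEmbedding ⊔ SimpleGraph.edge (e u) (e v)) =
        posEnergy p (G ⊔ SimpleGraph.edge u v) := h2
      rw [h4, h3]
      exact hlt


end Pool.Agent.PosEnergy
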